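import Mathlib
import Pool.Agent.R365.SH.Three

set_option autoImplicit false

namespace Pool.Agent.Results.MP_a793bb_nt.SharpCount

open NumberField IsDedekindDomain Filter Topology

variable {K : Type} [Field K] [NumberField K]

/-- the height `h(P)` of the point `P` with coordinates `x` -/
noncomputable def height (x : Fin 3 → K) : ℝ :=
  (∑ w : InfinitePlace K, (w.mult : ℝ) * Real.log (max (w (x 0)) (max (w (x 1)) (w (x 2)))) +
    ∑ᶠ v : HeightOneSpectrum (𝓞 K), Real.log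
      (max (FinitePlace.mk v (x 0)) (max (FinitePlace.mk v (x 1)) (FinitePlace.mk v (x 2))))) /
    (Module.finrank ℚ K : ℝ)

/-- the radical of the point `P` with coordinates `x`, without the primes of `T`: the sum of
`log N(v) / d` over the primes `v ∉ T` at which the valuations of the coordinates are not all
equal -/
noncomputable def rad (T : Set (HeightOneSpectrum (𝓞 K))) (x : Fin 3 → K) : ℝ :=
  (∑ᶠ (v : HeightOneSpectrum (𝓞 K)) (_ : v ∉ T ∧
      ¬ (FinitePlace.mk v (x 0) = FinitePlace.mk v (x 1) ∧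
        FinitePlace.mk v (x 1) = FinitePlace.mk v (x 2))),
    Real.log (Ideal.absNorm v.asIdeal : ℝ)) / (Module.finrank ℚ K : ℝ)

/-- the points `P = (a : b : c)`, of whatever height, with `a + b + c = 0`, `abc ≠ 0` and
`exp rad_T(P) ≤ X` -/
def Points (T : Set (HeightOneSpectrum (𝓞 K))) (X : ℝ) :
    Set (Projectivization K (Fin 3 → K)) :=
  {P | ∃ (x : Fin 3 → K) (hx : x ≠ 0), P = Projectivization.mk K x hx ∧ x 0 + x 1 + x 2 = 0 ∧
    x 0 * x 1 * x 2 ≠ 0 ∧ Real.exp (rad T x) ≤ X}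

/-- those among them with `3 h(P) ≥ rad_T(P) + t` -/
def Exceptions (T : Set (HeightOneSpectrum (𝓞 K))) (X t : ℝ) :
    Set (Projectivization K (Fin 3 → K)) :=
  {P | ∃ (x : Fin 3 → K) (hx : x ≠ 0), P = Projectivization.mk K x hx ∧ x 0 + x 1 + x 2 = 0 ∧
    x 0 * x 1 * x 2 ≠ 0 ∧ Real.exp (rad T x) ≤ X ∧ rad T x + t ≤ 3 * height x}

open Pool.Agent.R365.RC Pool.Agent.R365.SH Pool.Agent.W223.AK Pool.Agent.H691R3 in
/-- Let `K` be a number field of degree `d` and `T` a finite set of primes of `K`. Let `N(X)` be the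
number of all points `P = (a : b : c)` over `K`, of whatever height, with `a + b + c = 0`,
`abc ≠ 0` and `exp rad_T(P) ≤ X`.
(1) `N(X)` is finite, and `c₁ X ^ (2 d / 3) ≤ N(X) ≤ c₂ X ^ (2 d / 3)` for large `X`, with positive
constants `c₁`, `c₂`.
(2) For every `c < 1/3` there are `C` and `ν > 0` such that for all `X ≥ 1` and `t ≥ 0` at most
`C (exp (- c d t) + X ^ (-ν)) X ^ (2 d / 3)` of these points violate `3 h(P) < rad_T(P) + t`.
(3) For every function `ψ` tending to infinity the proportion of those with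
`3 h(P) ≥ rad_T(P) + ψ(X)` tends to `0`. -/
theorem result : ∀ (K : Type) [Field K] [NumberField K] (T : Set (HeightOneSpectrum (𝓞 K))),
    T.Finite →
      (∀ X : ℝ, 1 ≤ X → (Points T X).Finite) ∧
      (∃ c₁ c₂ X₀ : ℝ, 0 < c₁ ∧ ∀ X : ℝ, X₀ ≤ X →
        c₁ * X ^ (2 / (3 : ℝ) * Module.finrank ℚ K) ≤ ((Points T X).ncard : ℝ) ∧
        ((Points T X).ncard : ℝ) ≤ c₂ * X ^ (2 / (3 : ℝ) * Module.finrank ℚ K)) ∧
      (∀ c : ℝ, 0 ≤ c → c < 1 - 2 / 3 → ∃ C ν : ℝ, 0 < ν ∧ ∀ X t : ℝ, 1 ≤ X → 0 ≤ t →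
        ((Exceptions T X t).ncard : ℝ) ≤
          C * (Real.exp (-(c * Module.finrank ℚ K * t)) + X ^ (-ν)) *
            X ^ (2 / (3 : ℝ) * Module.finrank ℚ K)) ∧
      (∀ ψ : ℝ → ℝ, Tendsto ψ atTop atTop →
        Tendsto (fun X : ℝ => ((Exceptions T X (ψ X)).ncard : ℝ) /
          ((Points T X).ncard : ℝ)) atTop (𝓝 0)) := by
  intro K _ _ T hT
  classical
  set d : ℝ := (Module.finrank ℚ K : ℝ) with hd
  have hdpos : 0 < d := by
    rw [hd]
    exact_mod_cast Module.finrank_pos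
  have hheight : ∀ x : Fin 3 → K, height x = H3 x / d := fun x => rfl
  have hrad : ∀ x : Fin 3 → K, rad T x = R3 T x / d := fun x => rfl
  set Ω : Set K := {y | Pt y} with hΩ
  set h : K → ℝ := fun y => H3 (z3 y) / d with hh
  set N : K → ℝ := fun y => R3 T (z3 y) / d with hN
  have hz0 : ∀ y : K, z3 y ≠ 0 := by
    intro y h
    have := congrFun h 1
    rw [z3_one] at this
    exact one_ne_zero this
  set f : K → Projectivization K (Fin 3 → K) := fun y => Projectivization.mk K (z3 y) (hz0 y)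
    with hf
  have hfinj : Function.Injective f := by
    intro y y' h
    simp only [hf] at h
    rw [Projectivization.mk_eq_mk_iff'] at h
    obtain ⟨a, ha⟩ := h
    have h1 := congrFun ha 1
    have h0 := congrFun ha 0
    rw [Pi.smul_apply, smul_eq_mul] at h0 h1
    rw [z3_one, z3_one, mul_one] at h1
    rw [h1, one_mul] at h0
    exact h0.symm
  -- transport of points
  have hto : ∀ (x : Fin 3 → K) (hx : x ≠ 0), x 0 + x 1 + x 2 = 0 → x 0 * x 1 * x 2 ≠ 0 →
      x 0 / x 1 ∈ Ω ∧ height x = h (x 0 / x 1) ∧ rad T x = N (x 0 / x 1) ∧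
        f (x 0 / x 1) = Projectivization.mk K x hx := by
    intro x hx hs hne
    have g0 : x 0 ≠ 0 := fun h => hne (by rw [h]; ring)
    have g1 : x 1 ≠ 0 := fun h => hne (by rw [h]; ring)
    have g2 : x 2 ≠ 0 := fun h => hne (by rw [h]; ring)
    refine ⟨⟨div_ne_zero g0 g1, ?_⟩, ?_, ?_, ?_⟩
    · intro h3
      apply g2
      have h4 : x 0 / x 1 * x 1 = x 0 := div_mul_cancel₀ _ g1
      have h5 : x 0 / x 1 = -1 := by linear_combination h3
      rw [h5] at h4
      linear_combination hs + h4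
    · rw [hheight, H3_eq g1 hs]
    · rw [hrad, R3_eq_z T hT g0 g1 g2 hs]
    · simp only [hf]
      rw [Projectivization.mk_eq_mk_iff']
      refine ⟨(x 1)⁻¹, ?_⟩
      funext i
      rw [Pi.smul_apply, smul_eq_mul]
      fin_cases i
      · show (x 1)⁻¹ * x 0 = x 0 / x 1
        rw [inv_mul_eq_div]
      · show (x 1)⁻¹ * x 1 = 1
        exact inv_mul_cancel₀ g1
      · show (x 1)⁻¹ * x 2 = -(x 0 / x 1 + 1)
        have h6 : x 2 = -(x 0 + x 1) := by linear_combination hs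
        rw [h6]
        field_simp
  have hprod : ∀ y ∈ Ω, z3 y 0 * z3 y 1 * z3 y 2 ≠ 0 := by
    intro y hy
    show y * 1 * -(y + 1) ≠ 0
    exact mul_ne_zero (mul_ne_zero hy.1 one_ne_zero) (neg_ne_zero.mpr hy.2)
  have himgP : ∀ X, Points T X = f '' {x | x ∈ Ω ∧ Real.exp (N x) ≤ X} := by
    intro X
    ext P
    constructor
    · rintro ⟨x, hx, rfl, hs, hne, h1⟩
      obtain ⟨e1, e2, e3, e4⟩ := hto x hx hs hne
      exact ⟨x 0 / x 1, ⟨e1, by rw [← e3]; exact h1⟩, e4⟩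
    · rintro ⟨y, ⟨hy, h1⟩, rfl⟩
      exact ⟨z3 y, hz0 y, rfl, z3_sum y, hprod y hy, h1⟩
  have himgE : ∀ X t, Exceptions T X t =
      f '' {x | (x ∈ Ω ∧ Real.exp (N x) ≤ X) ∧ N x + t ≤ 3 * h x} := by
    intro X t
    ext P
    constructor
    · rintro ⟨x, hx, rfl, hs, hne, h1, h2⟩
      obtain ⟨e1, e2, e3, e4⟩ := hto x hx hs hne
      refine ⟨x 0 / x 1, ⟨⟨e1, by rw [← e3]; exact h1⟩, ?_⟩, e4⟩
      rw [← e3, ← e2]
      exact h2
    · rintro ⟨y, ⟨⟨hy, h1⟩, h2⟩, rfl⟩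
      exact ⟨z3 y, hz0 y, rfl, z3_sum y, hprod y hy, h1, h2⟩
  have hcP : ∀ X, (Points T X).ncard = {x | x ∈ Ω ∧ Real.exp (N x) ≤ X}.ncard := fun X => by
    rw [himgP X, Set.ncard_image_of_injective _ hfinj]
  have hcE : ∀ X t, (Exceptions T X t).ncard =
      {x | (x ∈ Ω ∧ Real.exp (N x) ≤ X) ∧ N x + t ≤ 3 * h x}.ncard := fun X t => by
    rw [himgE X t, Set.ncard_image_of_injective _ hfinj]
  have hb : ∀ y ∈ Ω, hr (aff y) ≤ H3 (z3 y) ∧ H3 (z3 y) ≤ hr (aff y) + lossK K := by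
    intro y _
    have hb := H3_bounds (x := z3 y) (by rw [z3_one]; exact one_ne_zero) (z3_sum y)
    rw [z3_div] at hb
    exact hb
  have hR : ∀ y ∈ Ω, R3 T (z3 y) = NTc T (α3 K) y := fun y hy =>
    R3_eq_NTc T hT ((off_iff y).mpr hy)
  have hfinal := final_of Ω h N 3 d (2 / (3 : ℝ)) hdpos ?_ (by norm_num) (by norm_num) ?_ ?_
  · obtain ⟨p1, p2, p3, p4⟩ := hfinal
    refine ⟨fun X hX => ?_, ?_, ?_, ?_⟩
    · rw [himgP X]
      exact (p1 X hX).image f
    · obtain ⟨c₁, c₂, X₀, hc₁, hX⟩ := p2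
      refine ⟨c₁, c₂, X₀, hc₁, fun X hX' => ?_⟩
      rw [hcP X]
      exact hX X hX'
    · intro c hc0 hc1
      obtain ⟨C, ν, hν, hX⟩ := p3 c hc0 hc1
      refine ⟨C, ν, hν, fun X t hX' ht => ?_⟩
      rw [hcE X t]
      exact hX X t hX' ht
    · intro ψ hψ
      have := p4 ψ hψ
      refine this.congr fun X => ?_
      rw [hcE X (ψ X), hcP X]
  · intro c hc0 hc1
    obtain ⟨C, ν, hC, hν, hup⟩ := all_upper (K := K) (q := 3) le_rfl T hT (α3 K) α3_ne α3_wg c hc0
      (by push_cast; exact hc1)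
    have hloss := lossK_nonneg K
    refine ⟨C * Real.exp (3 * c * lossK K), ν, by positivity, hν, fun Λ t hΛ E hE => ?_⟩
    have h1 := hup (d * Λ) (d * t - 3 * lossK K) (by positivity) E (by
      intro y hy
      obtain ⟨g1, g2, g3⟩ := hE y hy
      have g4 : R3 T (z3 y) / d ≤ Λ := g2
      have g5 : t ≤ 3 * (H3 (z3 y) / d) - R3 T (z3 y) / d := g3
      rw [div_le_iff₀ hdpos] at g4
      have g6 : 3 * (H3 (z3 y) / d) - R3 T (z3 y) / d = (3 * H3 (z3 y) - R3 T (z3 y)) / d := by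
        ring
      rw [g6, le_div_iff₀ hdpos] at g5
      have g7 := hb y g1
      refine ⟨(off_iff y).mpr g1, ?_, ?_⟩
      · rw [← hR y g1]
        linarith
      · rw [← hR y g1]
        push_cast
        linarith)
    refine h1.trans ?_
    push_cast
    have e1 : Real.exp (2 / 3 * (d * Λ) - c * (d * t - 3 * lossK K)) =
        Real.exp (3 * c * lossK K) * Real.exp (2 / 3 * (d * Λ) - c * (d * t)) := by
      rw [← Real.exp_add]
      congr 1
      ring
    have e2 : Real.exp ((2 / 3 - ν) * (d * Λ)) ≤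
        Real.exp (3 * c * lossK K) * Real.exp ((2 / 3 - ν) * (d * Λ)) := by
      have : 1 ≤ Real.exp (3 * c * lossK K) := Real.one_le_exp (by positivity)
      exact le_mul_of_one_le_left (Real.exp_pos _).le this
    rw [e1]
    have e3 := mul_le_mul_of_nonneg_left e2 hC.le
    linarith
  · intro y hy
    have h1 := hr_aff_nonneg y
    have h2 := (hb y hy).1
    exact div_nonneg (h1.trans h2) hdpos.le
  · obtain ⟨c₁, X₀, hc₁, hX₀, hl⟩ := low_all (K := K) (q := 3) le_rfl T (α3 K) α3_ne α3_wg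
    refine ⟨c₁, X₀, hc₁, fun X hX => ?_⟩
    obtain ⟨E, hE, hcard⟩ := hl X hX
    push_cast at hcard
    refine ⟨E, fun y hy => ?_, hcard⟩
    obtain ⟨g1, g2, _⟩ := hE y hy
    have g3 : y ∈ Ω := (off_iff y).mp g1
    refine ⟨g3, ?_⟩
    rw [← hR y g3] at g2
    show R3 T (z3 y) / d ≤ Real.log X
    rw [div_le_iff₀ hdpos]
    linarith

end Pool.Agent.Results.MP_a793bb_nt.SharpCount
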