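import Mathlib
import Pool.Agent.R365.AK.Main

set_option autoImplicit false

namespace Pool.Agent.Results.MP_a793bb_nt.ExceptionsAtEveryLevel

open NumberField IsDedekindDomain

variable {K : Type} [Field K] [NumberField K]

/-- the height `h(P)` of the point `P` with coordinates `x` -/
noncomputable def height (x : Fin 3 → K) : ℝ :=
  (∑ w : InfinitePlace K, (w.mult : ℝ) * Real.log (max (w (x 0)) (max (w (x 1)) (w (x 2)))) +
    ∑ᶠ v : HeightOneSpectrum (𝓞 K), Real.log
      (max (FinitePlace.mk v (x 0)) (max (FinitePlace.mk v (x 1)) (FinitePlace.mk v (x 2))))) /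
    (Module.finrank ℚ K : ℝ)

/-- the radical of the point `P` with coordinates `x`, without the primes of `T`: the sum of
`log N(v) / d` over the primes `v ∉ T` at which the valuations of the coordinates are not all
equal -/
noncomputable def rad (T : Set (HeightOneSpectrum (𝓞 K))) (x : Fin 3 → K) : ℝ :=
  (∑ᶠ (v : HeightOneSpectrum (𝓞 K)) (_ : v ∉ T ∧
      ¬ (FinitePlace.mk v (x 0) = FinitePlace.mk v (x 1) ∧
        FinitePlace.mk v (x 1) = FinitePlace.mk v (x 2))),
    Real.log (Ideal.absNorm v.asIdeal : ℝ)) / (Module.finrank ℚ K : ℝ)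

/-- the points `P = (a : b : c)` with `a + b + c = 0`, `abc ≠ 0`, `exp h(P) ≤ B` and
`rad_T(P) ≤ t h(P) + c₀` -/
def Exceptions (T : Set (HeightOneSpectrum (𝓞 K))) (t c₀ B : ℝ) :
    Set (Projectivization K (Fin 3 → K)) :=
  {P | ∃ (x : Fin 3 → K) (hx : x ≠ 0), P = Projectivization.mk K x hx ∧ x 0 + x 1 + x 2 = 0 ∧
    x 0 * x 1 * x 2 ≠ 0 ∧ Real.exp (height x) ≤ B ∧ rad T x ≤ t * height x + c₀}

/-- the exponent, a continuous piecewise linear function on `(0, 3]` -/
noncomputable def F (t : ℝ) : ℝ :=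
  if t ≤ 7 / 15 then 4 * t / 7
  else if t ≤ 1 then (19 * t + 1) / 37
  else if t ≤ 9 / 7 then 5 * (9 * t - 1) / 74
  else if t ≤ 3 / 2 then 5 * t / 9
  else if t ≤ 5 / 3 then t - 2 / 3
  else if t ≤ 2 then 1
  else t - 1

/-- Let `K` be a number field of degree `d`, `T` a finite set of primes of `K`, `0 < t ≤ 3`, and
`c₀` and `δ > 0` real. For `B ≥ 1`, the number of points `(a : b : c)` over `K` with
`a + b + c = 0`, `abc ≠ 0`, height `H ≤ B` and `rad_T ≤ t h + c₀` is `O(B ^ (d F(t) + δ))`. -/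
theorem result : ∀ (K : Type) [Field K] [NumberField K] (T : Set (HeightOneSpectrum (𝓞 K))),
    T.Finite → ∀ t c₀ δ : ℝ, 0 < t → t ≤ 3 → 0 < δ → ∃ C : ℝ, ∀ B : ℝ, 1 ≤ B →
      (Exceptions T t c₀ B).Finite ∧
      ((Exceptions T t c₀ B).ncard : ℝ) ≤
        C * B ^ ((Module.finrank ℚ K : ℝ) * F t + δ) := by
  intro K _ _ T hT t c₀ δ ht0 ht3 hδ
  classical
  set d : ℝ := (Module.finrank ℚ K : ℝ) with hd
  have hdpos : 0 < d := by
    rw [hd]
    exact_mod_cast Module.finrank_pos
  have hheight : ∀ x : Fin 3 → K, d * height x = Pool.Agent.W223.AK.H3 x := by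
    intro x
    unfold height
    rw [mul_div_cancel₀ _ hdpos.ne']
    rfl
  have hrad : ∀ x : Fin 3 → K, d * rad T x = Pool.Agent.W223.AK.R3 T x := by
    intro x
    unfold rad
    rw [mul_div_cancel₀ _ hdpos.ne']
    rfl
  have hF : Pool.Agent.R365.AK.eK t = F t := rfl
  obtain ⟨D, hD, hmain⟩ := Pool.Agent.R365.AK.final3 ht0.le
    (Pool.Agent.R365.AK.main3 K t ht0 ht3) T hT (d * c₀) (δ / d) (div_pos hδ hdpos)
  rw [hF] at hmain
  refine ⟨D, fun B hB => ?_⟩
  have hB0 : 0 < B := by linarith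
  have hlogB : 0 ≤ Real.log B := Real.log_nonneg hB
  have hbound : ∀ G : Finset (Projectivization K (Fin 3 → K)),
      (G : Set (Projectivization K (Fin 3 → K))) ⊆ Exceptions T t c₀ B →
      (G.card : ℝ) ≤ D * B ^ (d * F t + δ) := by
    intro G hG
    have hex : ∀ P : Projectivization K (Fin 3 → K), ∃ x : Fin 3 → K, P ∈ G →
        ∃ hx : x ≠ 0, P = Projectivization.mk K x hx ∧ x 0 + x 1 + x 2 = 0 ∧
          x 0 * x 1 * x 2 ≠ 0 ∧ Real.exp (height x) ≤ B ∧ rad T x ≤ t * height x + c₀ := by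
      intro P
      by_cases hP : P ∈ G
      · obtain ⟨x, hx, h⟩ := hG hP
        exact ⟨x, fun _ => ⟨hx, h⟩⟩
      · exact ⟨0, fun h => absurd h hP⟩
    choose f hf using hex
    have hinj : Set.InjOn f G := by
      intro P hP Q hQ hPQ
      obtain ⟨hx, h1, _⟩ := hf P hP
      obtain ⟨hy, h2, _⟩ := hf Q hQ
      rw [h1, h2]
      congr 1
    have hcard : (G.image f).card = G.card := Finset.card_image_of_injOn hinj
    have h1 := hmain (d * Real.log B) (G.image f) (mul_nonneg hdpos.le hlogB) ?_ ?_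
    · rw [hcard] at h1
      refine h1.trans (le_of_eq ?_)
      rw [Real.rpow_def_of_pos hB0]
      congr 2
      field_simp
    · intro x hx
      obtain ⟨P, hP, rfl⟩ := Finset.mem_image.mp hx
      obtain ⟨hx0, _, hs, hne, hH, hR⟩ := hf P hP
      have h0 : f P 0 ≠ 0 := fun h => hne (by rw [h]; ring)
      have h1 : f P 1 ≠ 0 := fun h => hne (by rw [h]; ring)
      have h2 : f P 2 ≠ 0 := fun h => hne (by rw [h]; ring)
      refine ⟨h0, h1, h2, hs, ?_, ?_⟩
      · rw [← hheight]
        refine mul_le_mul_of_nonneg_left ?_ hdpos.le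
        rw [Real.le_log_iff_exp_le hB0]
        exact hH
      · rw [← hheight, ← hrad]
        have h3 := mul_le_mul_of_nonneg_left hR hdpos.le
        calc d * rad T (f P) ≤ d * (t * height (f P) + c₀) := h3
          _ = t * (d * height (f P)) + d * c₀ := by ring
    · intro x hx y hy hxy
      obtain ⟨P, hP, rfl⟩ := Finset.mem_image.mp hx
      obtain ⟨Q, hQ, rfl⟩ := Finset.mem_image.mp hy
      obtain ⟨hx0, e1, hs, hne, _, _⟩ := hf P hP
      obtain ⟨hy0, e2, hs', hne', _, _⟩ := hf Q hQ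
      have h1 : f P 1 ≠ 0 := fun h => hne (by rw [h]; ring)
      have h1' : f Q 1 ≠ 0 := fun h => hne' (by rw [h]; ring)
      have hPQ : P = Q := by
        rw [e1, e2, Projectivization.mk_eq_mk_iff']
        refine ⟨f P 1 / f Q 1, ?_⟩
        have g0 : f P 0 = f P 1 / f Q 1 * f Q 0 := by
          rw [div_eq_div_iff h1 h1'] at hxy
          field_simp
          linear_combination hxy
        have g1 : f P 1 = f P 1 / f Q 1 * f Q 1 := by field_simp
        funext i
        rw [Pi.smul_apply, smul_eq_mul]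
        fin_cases i
        · exact g0.symm
        · exact g1.symm
        · have g2 : f P 2 = -(f P 0 + f P 1) := by linear_combination hs
          have g2' : f Q 2 = -(f Q 0 + f Q 1) := by linear_combination hs'
          show f P 1 / f Q 1 * f Q 2 = f P 2
          rw [g2, g2']
          linear_combination g0 + g1
      rw [hPQ]
  have hnn : 0 ≤ D * B ^ (d * F t + δ) := by positivity
  have hfin : (Exceptions T t c₀ B).Finite := by
    by_contra hinf
    obtain ⟨G, hGV, hGc⟩ := Set.Infinite.exists_subset_card_eq hinf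
      (⌊D * B ^ (d * F t + δ)⌋₊ + 1)
    have h1 := hbound G hGV
    have h2 := Nat.lt_floor_add_one (D * B ^ (d * F t + δ))
    rw [hGc] at h1
    push_cast at h1
    linarith
  refine ⟨hfin, ?_⟩
  rw [Set.ncard_eq_toFinset_card _ hfin]
  exact hbound hfin.toFinset (by rw [Set.Finite.coe_toFinset])

end Pool.Agent.Results.MP_a793bb_nt.ExceptionsAtEveryLevel
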