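import Mathlib
import Pool.Agent.R425.MK.Cnt
import Pool.Agent.R425.MK.Lim

/-!
# The abc inequality at the points of K close to a given point

`K` is a number field of degree `d`, embedded in a metric space `X` by any map `φ`: a field of real
or complex numbers, the completion at a place, Minkowski space, or a product of such spaces. For
`ξ ∈ X` the approximations `x ∈ K` with `dist (φ x) ξ ≤ A H ^ (-τ)` are considered, where
`H = exp h` is the height of the point `P = (x : 1 - x : -1)` of the line `a + b + c = 0`. Outside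
of a set of points `ξ` of small Hausdorff dimension only finitely many of them have
`rad_T(P) ≤ t h(P) + c₀`, whatever `T`, `A` and `c₀`.
-/

set_option autoImplicit false

namespace Pool.Agent.Results.MP_a793bb_nt.ApproximationsOverK

open NumberField IsDedekindDomain MeasureTheory

variable {K : Type} [Field K] [NumberField K]

/-- the height `h(P)` of the point `P` with coordinates `x` -/
noncomputable def height (x : Fin 3 → K) : ℝ :=
  (∑ w : InfinitePlace K, (w.mult : ℝ) * Real.log (max (w (x 0)) (max (w (x 1)) (w (x 2)))) +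
    ∑ᶠ v : HeightOneSpectrum (𝓞 K), Real.log
      (max (FinitePlace.mk v (x 0)) (max (FinitePlace.mk v (x 1)) (FinitePlace.mk v (x 2))))) /
    (Module.finrank ℚ K : ℝ)

/-- the radical of the point `P` with coordinates `x`, without the primes of `T`: the sum of
`log N(v) / d` over the primes `v ∉ T` at which the valuations of the coordinates are not all
equal -/
noncomputable def rad (T : Set (HeightOneSpectrum (𝓞 K))) (x : Fin 3 → K) : ℝ :=
  (∑ᶠ (v : HeightOneSpectrum (𝓞 K)) (_ : v ∉ T ∧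
      ¬ (FinitePlace.mk v (x 0) = FinitePlace.mk v (x 1) ∧
        FinitePlace.mk v (x 1) = FinitePlace.mk v (x 2))),
    Real.log (Ideal.absNorm v.asIdeal : ℝ)) / (Module.finrank ℚ K : ℝ)

/-- the point `(x : 1 - x : -1)` -/
def pt {K : Type} [Field K] (x : K) : Fin 3 → K := ![x, 1 - x, -1]

/-- the `x ∈ K`, `x ≠ 0, 1`, which approximate `ξ` to the order `τ` and violate
`rad_T(P) > t h(P) + c₀` at the point `P = (x : 1 - x : -1)` -/
def Exceptional {X : Type} [MetricSpace X] (φ : K → X) (τ t : ℝ)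
    (T : Set (HeightOneSpectrum (𝓞 K))) (A c₀ : ℝ) (ξ : X) : Set K :=
  {x | x ≠ 0 ∧ x ≠ 1 ∧ dist (φ x) ξ ≤ A * Real.exp (height (pt x)) ^ (-τ) ∧
    rad T (pt x) ≤ t * height (pt x) + c₀}

/-- the exponent, a continuous piecewise linear function on `(0, 3]` -/
noncomputable def F (t : ℝ) : ℝ :=
  if t ≤ 7 / 15 then 4 * t / 7
  else if t ≤ 1 then (19 * t + 1) / 37
  else if t ≤ 9 / 7 then 5 * (9 * t - 1) / 74
  else if t ≤ 3 / 2 then 5 * t / 9
  else if t ≤ 5 / 3 then t - 2 / 3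
  else if t ≤ 2 then 1
  else t - 1

theorem dpos (K : Type) [Field K] [NumberField K] : 0 < (Module.finrank ℚ K : ℝ) := by
  exact_mod_cast Module.finrank_pos

theorem height_nonneg (x : K) : 0 ≤ height (pt x) :=
  div_nonneg (Pool.Agent.R425.MK.H3_nonneg x) (dpos K).le

theorem rad_nonneg (T : Set (HeightOneSpectrum (𝓞 K))) (x : Fin 3 → K) : 0 ≤ rad T x :=
  div_nonneg (Pool.Agent.R425.MK.R3_nonneg T x) (dpos K).le

/-- the count -/
theorem count (T : Set (HeightOneSpectrum (𝓞 K))) (hT : T.Finite) {t : ℝ} (c₀ : ℝ) {δ : ℝ}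
    (ht0 : 0 < t) (ht3 : t ≤ 3) (hδ : 0 < δ) : ∃ C : ℝ, ∀ B : ℝ, 1 ≤ B →
      {x : K | x ≠ 0 ∧ x ≠ 1 ∧ Real.exp (height (pt x)) ≤ B ∧
        rad T (pt x) ≤ t * height (pt x) + c₀}.Finite ∧
      (({x : K | x ≠ 0 ∧ x ≠ 1 ∧ Real.exp (height (pt x)) ≤ B ∧
        rad T (pt x) ≤ t * height (pt x) + c₀}.ncard : ℕ) : ℝ) ≤
        C * B ^ ((Module.finrank ℚ K : ℝ) * F t + δ) := by
  have hd := dpos K
  obtain ⟨C, hC⟩ := Pool.Agent.R425.MK.count T hT ((Module.finrank ℚ K : ℝ) * c₀) ht0 ht3 hδ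
  refine ⟨C, fun B hB => ?_⟩
  have h := hC B hB
  have hB0 : 0 < B := by linarith
  have hset : {x : K | x ≠ 0 ∧ x ≠ 1 ∧ Real.exp (height (pt x)) ≤ B ∧
        rad T (pt x) ≤ t * height (pt x) + c₀} =
      {x : K | x ≠ 0 ∧ x ≠ 1 ∧ Pool.Agent.W223.AK.H3 (Pool.Agent.R425.MK.pt3 x) /
          (Module.finrank ℚ K : ℝ) ≤ Real.log B ∧
        Pool.Agent.W223.AK.R3 T (Pool.Agent.R425.MK.pt3 x) ≤
          t * Pool.Agent.W223.AK.H3 (Pool.Agent.R425.MK.pt3 x) +
          (Module.finrank ℚ K : ℝ) * c₀} := by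
    ext x
    refine and_congr_right fun _ => and_congr_right fun _ => and_congr ?_ ?_
    · rw [← Real.le_log_iff_exp_le hB0]
      exact Iff.rfl
    · have e1 : rad T (pt x) = Pool.Agent.W223.AK.R3 T (Pool.Agent.R425.MK.pt3 x) /
          (Module.finrank ℚ K : ℝ) := rfl
      have e2 : height (pt x) = Pool.Agent.W223.AK.H3 (Pool.Agent.R425.MK.pt3 x) /
          (Module.finrank ℚ K : ℝ) := rfl
      rw [e1, e2, div_le_iff₀ hd, add_mul, mul_assoc, div_mul_cancel₀ _ hd.ne',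
        mul_comm c₀]
  rw [hset]
  exact h

theorem F_nonneg {t : ℝ} (ht : 0 < t) : 0 ≤ F t := Pool.Agent.R365.AK.eK_nonneg ht

/-- the index set of the approximations -/
abbrev Idx (K : Type) [Field K] [NumberField K] (T : Set (HeightOneSpectrum (𝓞 K)))
    (t c₀ : ℝ) : Type :=
  {x : K // x ≠ 0 ∧ x ≠ 1 ∧ rad T (pt x) ≤ t * height (pt x) + c₀}

theorem idx_count (T : Set (HeightOneSpectrum (𝓞 K))) (hT : T.Finite) {t : ℝ} (c₀ : ℝ)
    (ht0 : 0 < t) (ht3 : t ≤ 3) (ε : ℝ) (hε : 0 < ε) : ∃ C : ℝ, ∀ B : ℝ, 1 ≤ B →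
      {i : Idx K T t c₀ | Real.exp (height (pt i.1)) ≤ B}.Finite ∧
      (({i : Idx K T t c₀ | Real.exp (height (pt i.1)) ≤ B}.ncard : ℕ) : ℝ) ≤
        C * B ^ ((Module.finrank ℚ K : ℝ) * F t + ε) := by
  obtain ⟨C, hC⟩ := count T hT c₀ ht0 ht3 hε
  refine ⟨C, fun B hB => ?_⟩
  obtain ⟨hfin, hle⟩ := hC B hB
  have hinj : Set.InjOn (Subtype.val : Idx K T t c₀ → K)
      {i | Real.exp (height (pt i.1)) ≤ B} := Subtype.val_injective.injOn
  have himg : (Subtype.val : Idx K T t c₀ → K) '' {i | Real.exp (height (pt i.1)) ≤ B} =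
      {x : K | x ≠ 0 ∧ x ≠ 1 ∧ Real.exp (height (pt x)) ≤ B ∧
        rad T (pt x) ≤ t * height (pt x) + c₀} := by
    ext x
    constructor
    · rintro ⟨u, hu, rfl⟩
      exact ⟨u.2.1, u.2.2.1, hu, u.2.2.2⟩
    · rintro ⟨h1, h2, h3, h4⟩
      exact ⟨⟨x, h1, h2, h4⟩, h3, rfl⟩
  refine ⟨Set.Finite.of_finite_image (by rw [himg]; exact hfin) hinj, ?_⟩
  rw [← hinj.ncard_image, himg]
  exact hle

/-- enlarging `A`, `c₀` and `t` enlarges the set -/
theorem mono {X : Type} [MetricSpace X] (φ : K → X) (τ : ℝ) {t t' : ℝ}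
    (T : Set (HeightOneSpectrum (𝓞 K))) {A A' c₀ c₀' : ℝ} (ξ : X) (ht : t ≤ t') (hA : A ≤ A')
    (hc : c₀ ≤ c₀') : Exceptional φ τ t T A c₀ ξ ⊆ Exceptional φ τ t' T A' c₀' ξ := by
  rintro x ⟨h1, h2, h3, h4⟩
  have h5 := height_nonneg x
  refine ⟨h1, h2, h3.trans ?_, h4.trans ?_⟩
  · gcongr
  · gcongr

theorem exc_finite {X : Type} [MetricSpace X] (φ : K → X) (τ t : ℝ)
    (T : Set (HeightOneSpectrum (𝓞 K))) (A c₀ : ℝ) (ξ : X)
    (h : {i : Idx K T t c₀ | dist (φ i.1) ξ ≤ A * Real.exp (height (pt i.1)) ^ (-τ)}.Finite) :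
    (Exceptional φ τ t T A c₀ ξ).Finite := by
  refine (h.image Subtype.val).subset ?_
  rintro x ⟨h1, h2, h3, h4⟩
  exact ⟨⟨x, h1, h2, h4⟩, h3, rfl⟩

theorem one_le_exp_height (x : K) : 1 ≤ Real.exp (height (pt x)) :=
  Real.one_le_exp (height_nonneg x)

/-- the dimension of the set of exceptions -/
theorem dim_part {X : Type} [MetricSpace X] (φ : K → X) {τ t : ℝ} (hτ : 0 < τ) (ht0 : 0 < t)
    (ht3 : t ≤ 3) : ∃ E : Set X,
      dimH E ≤ ENNReal.ofReal ((Module.finrank ℚ K : ℝ) * F t / τ) ∧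
      ∀ ξ ∉ E, ∀ T : Set (HeightOneSpectrum (𝓞 K)), T.Finite → ∀ A c₀ : ℝ,
        (Exceptional φ τ t T A c₀ ξ).Finite := by
  have := Pool.Agent.R425.MK.countable_K K
  have := Pool.Agent.R425.MK.countable_primes (K := K)
  refine ⟨⋃ p : Finset (HeightOneSpectrum (𝓞 K)) × ℕ,
    {ξ : X | {i : Idx K (p.1 : Set (HeightOneSpectrum (𝓞 K))) t p.2 |
      dist (φ i.1) ξ ≤ ((p.2 : ℝ) + 1) * Real.exp (height (pt i.1)) ^ (-τ)}.Infinite}, ?_, ?_⟩
  · rw [dimH_iUnion]
    refine iSup_le fun p => ?_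
    have hA : (0 : ℝ) < (p.2 : ℝ) + 1 := by positivity
    exact Pool.Agent.R425.MK.dimH_balls (fun i : Idx K (p.1 : Set _) t p.2 => φ i.1)
      (fun i => Real.exp (height (pt i.1))) (fun i => one_le_exp_height _)
      (mul_nonneg (dpos K).le (F_nonneg ht0)) hτ hA
      (idx_count _ (Finset.finite_toSet _) _ ht0 ht3)
  · intro ξ hξ T hT A c₀
    rw [Set.mem_iUnion, not_exists] at hξ
    obtain ⟨n, hn⟩ := exists_nat_ge (max A c₀)
    have h1 := hξ ⟨hT.toFinset, n⟩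
    rw [Set.mem_ofPred_eq, Set.not_infinite] at h1
    have h2 := exc_finite φ τ t _ _ _ ξ h1
    rw [Set.Finite.coe_toFinset] at h2
    refine h2.subset (mono φ τ T ξ le_rfl ?_ ((le_max_right _ _).trans hn))
    have := (le_max_left A c₀).trans hn
    linarith

/-- almost all points, one level -/
theorem ae_part {X : Type} [MetricSpace X] [MeasurableSpace X] (μ : Measure X) {C m : ℝ}
    (hμ : ∀ (x : X) (r : ℝ), 0 < r → μ (Metric.closedBall x r) ≤ ENNReal.ofReal (C * r ^ m))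
    (φ : K → X) {τ t : ℝ} (ht0 : 0 < t) (ht3 : t ≤ 3)
    (h : (Module.finrank ℚ K : ℝ) * F t < τ * m) :
    ∀ᵐ ξ ∂μ, ∀ T : Set (HeightOneSpectrum (𝓞 K)), T.Finite → ∀ A c₀ : ℝ,
        (Exceptional φ τ t T A c₀ ξ).Finite := by
  have := Pool.Agent.R425.MK.countable_K K
  have := Pool.Agent.R425.MK.countable_primes (K := K)
  have h1 : ∀ᵐ ξ ∂μ, ∀ p : Finset (HeightOneSpectrum (𝓞 K)) × ℕ,
      {i : Idx K (p.1 : Set (HeightOneSpectrum (𝓞 K))) t p.2 |
      dist (φ i.1) ξ ≤ ((p.2 : ℝ) + 1) * Real.exp (height (pt i.1)) ^ (-τ)}.Finite := by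
    rw [ae_all_iff]
    intro p
    have hA : (0 : ℝ) < (p.2 : ℝ) + 1 := by positivity
    exact Pool.Agent.R425.MK.ae_balls μ hμ (fun i : Idx K (p.1 : Set _) t p.2 => φ i.1)
      (fun i => Real.exp (height (pt i.1))) (fun i => one_le_exp_height _)
      (mul_nonneg (dpos K).le (F_nonneg ht0)) h hA
      (idx_count _ (Finset.finite_toSet _) _ ht0 ht3)
  filter_upwards [h1] with ξ hξ T hT A c₀
  obtain ⟨n, hn⟩ := exists_nat_ge (max A c₀)
  have h2 := exc_finite φ τ t _ _ _ ξ (hξ ⟨hT.toFinset, n⟩)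
  rw [Set.Finite.coe_toFinset] at h2
  refine h2.subset (mono φ τ T ξ le_rfl ?_ ((le_max_right _ _).trans hn))
  have := (le_max_left A c₀).trans hn
  linarith

theorem F_lt {s t : ℝ} (hs : 1 < s) (ht : t < 1 + s) : F t < s := by
  unfold F
  split_ifs <;> linarith

/-- almost all points, all levels -/
theorem ae_all {X : Type} [MetricSpace X] [MeasurableSpace X] (μ : Measure X) {C m : ℝ}
    (hμ : ∀ (x : X) (r : ℝ), 0 < r → μ (Metric.closedBall x r) ≤ ENNReal.ofReal (C * r ^ m))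
    (φ : K → X) {τ : ℝ} (h1 : (Module.finrank ℚ K : ℝ) < τ * m)
    (h2 : τ * m ≤ 2 * (Module.finrank ℚ K : ℝ)) :
    ∀ᵐ ξ ∂μ, ∀ t < 1 + τ * m / (Module.finrank ℚ K : ℝ),
      ∀ T : Set (HeightOneSpectrum (𝓞 K)), T.Finite → ∀ A c₀ : ℝ,
        (Exceptional φ τ t T A c₀ ξ).Finite := by
  have hd := dpos K
  set s : ℝ := τ * m / (Module.finrank ℚ K : ℝ) with hs
  have hs1 : 1 < s := by rw [hs, lt_div_iff₀ hd]; linarith
  have hs2 : s ≤ 2 := by rw [hs, div_le_iff₀ hd]; linarith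
  have hsd : s * (Module.finrank ℚ K : ℝ) = τ * m := div_mul_cancel₀ _ hd.ne'
  have h3 : ∀ᵐ ξ ∂μ, ∀ n : ℕ, ∀ T : Set (HeightOneSpectrum (𝓞 K)), T.Finite → ∀ A c₀ : ℝ,
        (Exceptional φ τ (1 + s - 1 / ((n : ℝ) + 1)) T A c₀ ξ).Finite := by
    rw [ae_all_iff]
    intro n
    have h4 : (0 : ℝ) < 1 / ((n : ℝ) + 1) := by positivity
    have h5 : 1 / ((n : ℝ) + 1) ≤ 1 := by
      rw [div_le_one (by positivity)]
      linarith [(Nat.cast_nonneg n : (0 : ℝ) ≤ n)]
    have h6 : F (1 + s - 1 / ((n : ℝ) + 1)) < s := F_lt hs1 (by linarith)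
    refine ae_part μ hμ φ (by linarith) (by linarith) ?_
    rw [← hsd, mul_comm s]
    exact mul_lt_mul_of_pos_left h6 hd
  filter_upwards [h3] with ξ hξ t ht T hT A c₀
  obtain ⟨n, hn⟩ := exists_nat_one_div_lt (show 0 < 1 + s - t by linarith)
  exact (hξ n T hT A c₀).subset (mono φ τ T ξ (by linarith) le_rfl le_rfl)

/-- **The abc inequality at the approximations from `K`.** Let `K` be a number field of degree `d`.
(1) Let `φ` be any map from `K` to a metric space `X`, for instance an embedding of `K` in the real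
or complex numbers, in a completion or in Minkowski space, let `τ > 0` and `0 < t ≤ 3`. There is a
set `E` of Hausdorff dimension at most `d F(t) / τ` such that for every `ξ ∈ X` outside `E`, all
finite sets `T` of primes and all real `A`, `c₀` only finitely many `x ∈ K` satisfy
`dist (φ x) ξ ≤ A H ^ (-τ)` and `rad_T(P) ≤ t h(P) + c₀`, where `P = (x : 1 - x : -1)` and
`H = exp h(P)`.
(2) If `μ` is a measure on `X` with `μ (ball of radius r) ≤ C r ^ m` and `d F(t) < τ m`, the same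
holds for almost all `ξ`.
(3) If `X` is a real normed space of finite dimension `m ≥ 1` with its Lebesgue measure and
`d / m < τ ≤ 2 d / m`, then for almost all `ξ` it holds for all `t < 1 + τ m / d` at once; for all
`t < 3`, if `τ = 2 d / m`. -/
theorem result : ∀ (K : Type) [Field K] [NumberField K],
    (∀ (X : Type) [MetricSpace X] (φ : K → X) (τ t : ℝ), 0 < τ → 0 < t → t ≤ 3 →
      (∃ E : Set X, dimH E ≤ ENNReal.ofReal ((Module.finrank ℚ K : ℝ) * F t / τ) ∧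
        ∀ ξ ∉ E, ∀ T : Set (HeightOneSpectrum (𝓞 K)), T.Finite → ∀ A c₀ : ℝ,
          (Exceptional φ τ t T A c₀ ξ).Finite) ∧
      ∀ [MeasurableSpace X] (μ : Measure X) (C m : ℝ),
        (∀ (x : X) (r : ℝ), 0 < r → μ (Metric.closedBall x r) ≤ ENNReal.ofReal (C * r ^ m)) →
        (Module.finrank ℚ K : ℝ) * F t < τ * m →
        ∀ᵐ ξ ∂μ, ∀ T : Set (HeightOneSpectrum (𝓞 K)), T.Finite → ∀ A c₀ : ℝ,
          (Exceptional φ τ t T A c₀ ξ).Finite) ∧
    ∀ (X : Type) [NormedAddCommGroup X] [NormedSpace ℝ X] [FiniteDimensional ℝ X]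
      [MeasurableSpace X] [BorelSpace X] (μ : Measure X) [μ.IsAddHaarMeasure] (φ : K → X) (τ : ℝ),
      (Module.finrank ℚ K : ℝ) < τ * Module.finrank ℝ X →
      τ * Module.finrank ℝ X ≤ 2 * (Module.finrank ℚ K : ℝ) →
      ∀ᵐ ξ ∂μ, ∀ t < 1 + τ * Module.finrank ℝ X / (Module.finrank ℚ K : ℝ),
        ∀ T : Set (HeightOneSpectrum (𝓞 K)), T.Finite → ∀ A c₀ : ℝ,
          (Exceptional φ τ t T A c₀ ξ).Finite := by
  intro K _ _
  refine ⟨fun X _ φ τ t hτ ht0 ht3 => ⟨dim_part φ hτ ht0 ht3, fun μ C m hμ h =>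
    ae_part μ hμ φ ht0 ht3 h⟩, ?_⟩
  intro X _ _ _ _ _ μ _ φ τ h1 h2
  refine ae_all μ (C := (μ (Metric.ball 0 1)).toReal) (m := (Module.finrank ℝ X : ℝ)) ?_ φ h1 h2
  intro x r hr
  rw [Measure.addHaar_closedBall μ x hr.le, mul_comm ((μ (Metric.ball 0 1)).toReal),
    ENNReal.ofReal_mul (by positivity), ENNReal.ofReal_toReal measure_ball_lt_top.ne,
    Real.rpow_natCast]

end Pool.Agent.Results.MP_a793bb_nt.ApproximationsOverK
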