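import Mathlib
import Pool.Agent.R365.AK.Main
import Pool.Agent.R365.RC.Three

set_option autoImplicit false

namespace Pool.Agent.Results.MP_a793bb_nt.ExceptionsByRadical

open NumberField IsDedekindDomain Filter Topology

variable {K : Type} [Field K] [NumberField K]

/-- the height `h(P)` of the point `P` with coordinates `x` -/
noncomputable def height (x : Fin 3 → K) : ℝ :=
  (∑ w : InfinitePlace K, (w.mult : ℝ) * Real.log (max (w (x 0)) (max (w (x 1)) (w (x 2)))) +
    ∑ᶠ v : HeightOneSpectrum (𝓞 K), Real.log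
      (max (FinitePlace.mk v (x 0)) (max (FinitePlace.mk v (x 1)) (FinitePlace.mk v (x 2))))) /
    (Module.finrank ℚ K : ℝ)

/-- the radical of the point `P` with coordinates `x`, without the primes of `T`: the sum of
`log N(v) / d` over the primes `v ∉ T` at which the valuations of the coordinates are not all
equal -/
noncomputable def rad (T : Set (HeightOneSpectrum (𝓞 K))) (x : Fin 3 → K) : ℝ :=
  (∑ᶠ (v : HeightOneSpectrum (𝓞 K)) (_ : v ∉ T ∧
      ¬ (FinitePlace.mk v (x 0) = FinitePlace.mk v (x 1) ∧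
        FinitePlace.mk v (x 1) = FinitePlace.mk v (x 2))),
    Real.log (Ideal.absNorm v.asIdeal : ℝ)) / (Module.finrank ℚ K : ℝ)

/-- the points `P = (a : b : c)` with `a + b + c = 0`, `abc ≠ 0`, `exp rad_T(P) ≤ X` and
`M rad_T(P) ≤ h(P) ≤ A log X` -/
def Exceptions (T : Set (HeightOneSpectrum (𝓞 K))) (M A X : ℝ) :
    Set (Projectivization K (Fin 3 → K)) :=
  {P | ∃ (x : Fin 3 → K) (hx : x ≠ 0), P = Projectivization.mk K x hx ∧ x 0 + x 1 + x 2 = 0 ∧
    x 0 * x 1 * x 2 ≠ 0 ∧ Real.exp (rad T x) ≤ X ∧ M * rad T x ≤ height x ∧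
    height x ≤ A * Real.log X}

/-- the exponent -/
noncomputable def E (M : ℝ) : ℝ :=
  if M ≤ 2 / 5 then 1 - M
  else if M ≤ 3 / 5 then 3 / 5
  else if M ≤ 9 / 14 then 1 - 2 * M / 3
  else 4 / 7

open Pool.Agent.R365.RC Pool.Agent.W223.AK in
/-- Let `K` be a number field of degree `d`, `T` a finite set of primes of `K` and `1/3 ≤ M ≤ A`.
Let `N(X)` be the number of points `P = (a : b : c)` over `K` with `a + b + c = 0`, `abc ≠ 0`,
`exp rad_T(P) ≤ X` and `M rad_T(P) ≤ h(P) ≤ A log X`.
(1) `N(X)` is finite and `O(X ^ (d E(M) + δ))` for every `δ > 0`; for `M ≥ 9/14`, for example for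
`M = 1`, the exponent is `4 d / 7`.
(2) If `M ≤ 2/5`, then `N(X) = X ^ (d (1 - M) + o(1))` for `X → ∞`. -/
theorem result : ∀ (K : Type) [Field K] [NumberField K] (T : Set (HeightOneSpectrum (𝓞 K))),
    T.Finite → ∀ M A : ℝ, 1 / 3 ≤ M → M ≤ A →
      (∀ δ : ℝ, 0 < δ → ∃ C : ℝ, ∀ X : ℝ, 1 ≤ X → (Exceptions T M A X).Finite ∧
        ((Exceptions T M A X).ncard : ℝ) ≤ C * X ^ ((Module.finrank ℚ K : ℝ) * E M + δ)) ∧
      (M ≤ 2 / 5 →
        Tendsto (fun X : ℝ => Real.log ((Exceptions T M A X).ncard : ℝ) / Real.log X) atTop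
          (𝓝 ((Module.finrank ℚ K : ℝ) * (1 - M)))) := by
  intro K _ _ T hT M A hM hMA
  classical
  have hM0 : 0 < M := by linarith
  set d : ℝ := (Module.finrank ℚ K : ℝ) with hd
  have hdpos : 0 < d := by
    rw [hd]
    exact_mod_cast Module.finrank_pos
  have hheight : ∀ x : Fin 3 → K, height x = H3 x / d := fun x => rfl
  have hrad : ∀ x : Fin 3 → K, rad T x = R3 T x / d := fun x => rfl
  set Ω : Set K := {y | Pt y} with hΩ
  set h : K → ℝ := fun y => H3 (z3 y) / d with hh
  set N : K → ℝ := fun y => R3 T (z3 y) / d with hN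
  have hz0 : ∀ y : K, z3 y ≠ 0 := by
    intro y h
    have := congrFun h 1
    rw [z3_one] at this
    exact one_ne_zero this
  set f : K → Projectivization K (Fin 3 → K) := fun y => Projectivization.mk K (z3 y) (hz0 y)
    with hf
  have hfinj : Function.Injective f := by
    intro y y' h
    simp only [hf] at h
    rw [Projectivization.mk_eq_mk_iff'] at h
    obtain ⟨a, ha⟩ := h
    have h1 := congrFun ha 1
    have h0 := congrFun ha 0
    rw [Pi.smul_apply, smul_eq_mul] at h0 h1
    rw [z3_one, z3_one, mul_one] at h1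
    rw [h1, one_mul] at h0
    exact h0.symm
  have himg : ∀ X, Exceptions T M A X = f '' win Ω h N M A X := by
    intro X
    ext P
    constructor
    · rintro ⟨x, hx, rfl, hs, hne, h1, h2, h3⟩
      have g0 : x 0 ≠ 0 := fun h => hne (by rw [h]; ring)
      have g1 : x 1 ≠ 0 := fun h => hne (by rw [h]; ring)
      have g2 : x 2 ≠ 0 := fun h => hne (by rw [h]; ring)
      have e1 : height x = h (x 0 / x 1) := by
        rw [hheight, H3_eq g1 hs]
      have e2 : rad T x = N (x 0 / x 1) := by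
        rw [hrad, R3_eq_z T hT g0 g1 g2 hs]
      refine ⟨x 0 / x 1, ⟨?_, ?_, ?_, ?_⟩, ?_⟩
      · refine ⟨div_ne_zero g0 g1, ?_⟩
        intro h3
        apply g2
        have h4 : x 0 / x 1 * x 1 = x 0 := div_mul_cancel₀ _ g1
        have h5 : x 0 / x 1 = -1 := by linear_combination h3
        rw [h5] at h4
        linear_combination hs + h4
      · rw [← e2]; exact h1
      · rw [← e2, ← e1]; exact h2
      · rw [← e1]; exact h3
      · simp only [hf]
        rw [Projectivization.mk_eq_mk_iff']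
        refine ⟨(x 1)⁻¹, ?_⟩
        funext i
        rw [Pi.smul_apply, smul_eq_mul]
        fin_cases i
        · show (x 1)⁻¹ * x 0 = x 0 / x 1
          rw [inv_mul_eq_div]
        · show (x 1)⁻¹ * x 1 = 1
          exact inv_mul_cancel₀ g1
        · show (x 1)⁻¹ * x 2 = -(x 0 / x 1 + 1)
          have h6 : x 2 = -(x 0 + x 1) := by linear_combination hs
          rw [h6]
          field_simp
    · rintro ⟨y, ⟨hy, h1, h2, h3⟩, rfl⟩
      refine ⟨z3 y, hz0 y, rfl, z3_sum y, ?_, h1, h2, h3⟩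
      show y * 1 * -(y + 1) ≠ 0
      exact mul_ne_zero (mul_ne_zero hy.1 one_ne_zero) (neg_ne_zero.mpr hy.2)
  have hncard : ∀ X, (Exceptions T M A X).ncard = (win Ω h N M A X).ncard := by
    intro X
    rw [himg X, Set.ncard_image_of_injective _ hfinj]
  -- the exponent
  have hE47 : 4 / 7 ≤ E M := by
    unfold E
    split_ifs <;> linarith
  have hE0 : 0 ≤ E M := by linarith
  have he : ∀ y : ℝ, M ≤ y → y ≤ A → y * Pool.Agent.R365.AK.eK y⁻¹ ≤ E M := by
    intro y hy1 _
    have hy0 : 0 < y := by linarith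
    have hyy : y * y⁻¹ = 1 := mul_inv_cancel₀ hy0.ne'
    have hlt : ∀ c : ℝ, c < y⁻¹ → c * y < 1 := by
      intro c hc
      have := mul_lt_mul_of_pos_right hc hy0
      rwa [inv_mul_cancel₀ hy0.ne'] at this
    have hle : ∀ c : ℝ, y⁻¹ ≤ c → 1 ≤ c * y := by
      intro c hc
      have := mul_le_mul_of_nonneg_right hc hy0.le
      rwa [inv_mul_cancel₀ hy0.ne'] at this
    unfold Pool.Agent.R365.AK.eK
    by_cases c1 : y⁻¹ ≤ 7 / 15
    · rw [if_pos c1]
      have : y * (4 * y⁻¹ / 7) = 4 / 7 * (y * y⁻¹) := by ring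
      rw [this, hyy]
      linarith
    rw [if_neg c1]
    have c1' := hlt _ (not_le.mp c1)
    by_cases c2 : y⁻¹ ≤ 1
    · rw [if_pos c2]
      have : y * ((19 * y⁻¹ + 1) / 37) = (19 * (y * y⁻¹) + y) / 37 := by ring
      rw [this, hyy]
      linarith
    rw [if_neg c2]
    have c2' := hlt _ (not_le.mp c2)
    by_cases c3 : y⁻¹ ≤ 9 / 7
    · rw [if_pos c3]
      have c3' := hle _ c3
      have : y * (5 * (9 * y⁻¹ - 1) / 74) = 5 * (9 * (y * y⁻¹) - y) / 74 := by ring
      rw [this, hyy]
      linarith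
    rw [if_neg c3]
    by_cases c4 : y⁻¹ ≤ 3 / 2
    · rw [if_pos c4]
      have : y * (5 * y⁻¹ / 9) = 5 / 9 * (y * y⁻¹) := by ring
      rw [this, hyy]
      linarith
    rw [if_neg c4]
    have c4' := hlt _ (not_le.mp c4)
    by_cases c5 : y⁻¹ ≤ 5 / 3
    · rw [if_pos c5]
      have c5' := hle _ c5
      have : y * (y⁻¹ - 2 / 3) = y * y⁻¹ - 2 / 3 * y := by ring
      rw [this, hyy]
      unfold E
      split_ifs <;> linarith
    rw [if_neg c5]
    have c5' := hlt _ (not_le.mp c5)
    by_cases c6 : y⁻¹ ≤ 2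
    · rw [if_pos c6]
      have c6' := hle _ c6
      rw [mul_one]
      unfold E
      split_ifs <;> linarith
    rw [if_neg c6]
    have c6' := hlt _ (not_le.mp c6)
    have : y * (y⁻¹ - 1) = y * y⁻¹ - y := by ring
    rw [this, hyy]
    unfold E
    split_ifs <;> linarith
  have hup := upper Ω h N d M A (E M) hdpos hM0 hMA hE0
    (fun y => Pool.Agent.R365.AK.eK y⁻¹) he (by
      intro y hy1 hy2 δ hδ
      have hy0 : 0 < y := by linarith
      have hl0 : 0 < y⁻¹ := inv_pos.mpr hy0
      have hl3 : y⁻¹ ≤ 3 := by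
        rw [inv_le_comm₀ hy0 (by norm_num)]
        linarith
      obtain ⟨D, hD, hmain⟩ := Pool.Agent.R365.AK.final3 hl0.le
        (Pool.Agent.R365.AK.main3 K y⁻¹ hl0 hl3) T hT 0 (δ / d) (div_pos hδ hdpos)
      refine ⟨D, fun B hB => ?_⟩
      have hB0 : 0 < B := by linarith
      have hlogB : 0 ≤ Real.log B := Real.log_nonneg hB
      have hbound : ∀ G : Finset K, (G : Set K) ⊆
          {x | x ∈ Ω ∧ Real.exp (h x) ≤ B ∧ N x ≤ y⁻¹ * h x} →
          (G.card : ℝ) ≤ D * B ^ (d * Pool.Agent.R365.AK.eK y⁻¹ + δ) := by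
        intro G hG
        have hinj : Set.InjOn (z3 (K := K)) G := fun a _ b _ hab => congrFun hab 0
        have h1 := hmain (d * Real.log B) (G.image z3) (mul_nonneg hdpos.le hlogB) ?_ ?_
        · rw [Finset.card_image_of_injOn hinj] at h1
          refine h1.trans (le_of_eq ?_)
          rw [Real.rpow_def_of_pos hB0]
          congr 2
          field_simp
        · intro x hx
          obtain ⟨a, ha, rfl⟩ := Finset.mem_image.mp hx
          obtain ⟨g1, g2, g3⟩ := hG ha
          refine ⟨g1.1, by rw [z3_one]; exact one_ne_zero, neg_ne_zero.mpr g1.2, z3_sum a, ?_, ?_⟩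
          · rw [← Real.le_log_iff_exp_le hB0] at g2
            have g4 : H3 (z3 a) / d ≤ Real.log B := g2
            rw [div_le_iff₀ hdpos] at g4
            linarith
          · have g4 : R3 T (z3 a) / d ≤ y⁻¹ * (H3 (z3 a) / d) := g3
            rw [div_le_iff₀ hdpos] at g4
            have g5 : y⁻¹ * (H3 (z3 a) / d) * d = y⁻¹ * H3 (z3 a) := by field_simp
            linarith
        · intro x hx x' hx' hxx
          obtain ⟨a, ha, rfl⟩ := Finset.mem_image.mp hx
          obtain ⟨b, hb, rfl⟩ := Finset.mem_image.mp hx'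
          rw [z3_div, z3_div] at hxx
          rw [hxx]
      have hfin : {x | x ∈ Ω ∧ Real.exp (h x) ≤ B ∧ N x ≤ y⁻¹ * h x}.Finite := by
        by_contra hinf
        obtain ⟨G, hGV, hGc⟩ := Set.Infinite.exists_subset_card_eq hinf
          (⌊D * B ^ (d * Pool.Agent.R365.AK.eK y⁻¹ + δ)⌋₊ + 1)
        have h1 := hbound G hGV
        have h2 := Nat.lt_floor_add_one (D * B ^ (d * Pool.Agent.R365.AK.eK y⁻¹ + δ))
        rw [hGc] at h1
        push_cast at h1
        linarith
      refine ⟨hfin, ?_⟩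
      rw [Set.ncard_eq_toFinset_card _ hfin]
      exact hbound hfin.toFinset (by rw [Set.Finite.coe_toFinset]))
  refine ⟨fun δ hδ => ?_, fun hM2 => ?_⟩
  · obtain ⟨C, _, hC⟩ := hup δ hδ
    refine ⟨C, fun X hX => ?_⟩
    rw [hncard X]
    obtain ⟨h1, h2⟩ := hC X hX
    refine ⟨?_, h2⟩
    rw [himg X]
    exact h1.image f
  · have hEM : E M = 1 - M := by
      unfold E
      rw [if_pos hM2]
    rw [hEM] at hup
    refine tendsto_log (fun δ hδ => ?_) (fun δ hδ => ?_)
    · obtain ⟨C, hC0, hC⟩ := hup δ hδ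
      refine ⟨C, hC0, fun X hX => ?_⟩
      rw [hncard X]
      exact (hC X hX).2
    · obtain ⟨C, X₀, hC, hX₀, hl⟩ := low3 T hT M δ hM (by linarith) hδ
      refine ⟨C, X₀, hC, fun X hX => ?_⟩
      obtain ⟨G, hG, hcard⟩ := hl X hX
      rw [← hd] at hcard
      refine hcard.trans ?_
      rw [hncard X]
      have hX1 : 1 ≤ X := hX₀.trans hX
      have hX0 : 0 < X := by linarith
      have hlog : 0 ≤ Real.log X := Real.log_nonneg hX1
      obtain ⟨C', _, hC'⟩ := hup 1 one_pos
      have hfin := (hC' X hX1).1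
      have hsub : (G : Set K) ⊆ win Ω h N M A X := by
        intro y hy
        obtain ⟨g1, g2, g3, g4⟩ := hG y hy
        rw [← hd] at g2 g4
        refine ⟨g1, ?_, ?_, ?_⟩
        · rw [← Real.le_log_iff_exp_le hX0]
          show R3 T (z3 y) / d ≤ Real.log X
          rw [div_le_iff₀ hdpos]
          linarith
        · show M * (R3 T (z3 y) / d) ≤ H3 (z3 y) / d
          rw [le_div_iff₀ hdpos]
          have : M * (R3 T (z3 y) / d) * d = M * R3 T (z3 y) := by field_simp
          linarith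
        · show H3 (z3 y) / d ≤ A * Real.log X
          rw [div_le_iff₀ hdpos]
          have h5 : M * Real.log X ≤ A * Real.log X := mul_le_mul_of_nonneg_right hMA hlog
          have h6 := mul_le_mul_of_nonneg_left h5 hdpos.le
          linarith
      have h1 := Set.ncard_le_ncard hsub hfin
      rw [Set.ncard_coe_finset] at h1
      exact_mod_cast h1

end Pool.Agent.Results.MP_a793bb_nt.ExceptionsByRadical
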